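import Pool.Agent.H54.RSeq
import Pool.Agent.H54.RSeqS

namespace Pool.Agent.Results.MP_d3366a_al.RSeq
open Pool.Agent.H54.RSeq

theorem result (n : ℕ) (hn : 4 ≤ n) :
    RSequenceable (PresentedGroup (rels (2 ^ (n - 1)) (2 ^ (n - 2) - 1))) := by
  obtain ⟨k, rfl⟩ : ∃ k, n = k + 4 := ⟨n - 4, by omega⟩
  have h1 : 1 ≤ 2 ^ k := Nat.one_le_two_pow
  have h1' : (1 : ℤ) ≤ ((2 ^ k : ℕ) : ℤ) := by exact_mod_cast h1
  rw [show 2 ^ (k + 4 - 1) = 8 * 2 ^ k by rw [show k + 4 - 1 = k + 3 by omega]; ring,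
    show 2 ^ (k + 4 - 2) = 4 * 2 ^ k by rw [show k + 4 - 2 = k + 2 by omega]; ring]
  exact pres (2 ^ k) _ (-1) h1 (Or.inr rfl) (by omega) _ _ (good1s _ h1') (good2s _ h1')
    (good3s _ h1')

end Pool.Agent.Results.MP_d3366a_al.RSeq
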